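import Pool.Agent.Helper74.DI.St

/-! # Project DI, module HT2 (second configuration) -/

set_option autoImplicit false

namespace Pool.Agent.Helper26.DI

open Pool.Agent.Helper74 Pool.Agent.Helper74.DI
open Pool.Agent.Helper74.NM (NC)
open Pool.Agent.Helper74.WB (OP QW rl enc iv ap rd Red)

section

variable {G : Type}

/-- the code -/
def k2 (x x' u y y' z : G) (a : (Bool × Bool) × Bool) : List G :=
  match a.1 with
  | (false, true) => [u, y']
  | (false, false) => [x, y]
  | (true, true) => [x, z]
  | (true, false) => [x', y']

open Classical in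
/-- the translation of a letter -/
noncomputable def f2 (x' u y z : G) (s : Bool) (a : G) : List ((Bool × Bool) × Bool) :=
  if s then (if a = u then [((false, true), true)] else if a = x' then [((true, false), false)]
    else [])
  else (if a = y then [((false, false), false)] else if a = z then [((true, true), true)] else [])

/-- allowed letters -/
def al2 (x x' u y y' z : G) (s : Bool) (a : G) : Prop :=
  if s then (a = x ∨ a = x' ∨ a = u) else (a = y ∨ a = y' ∨ a = z)

end

theorem op_one (i : Bool) : OP [(((i, true) : Bool × Bool), true)] :=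
  OP.skip _ _ OP.nil

theorem op_wr (i s o o' : Bool) (U : List ((Bool × Bool) × Bool)) (hU : OP U) :
    OP (((i, s), o) :: (U ++ [((i, !s), o')])) :=
  OP.wrap (i, s) o o' U [] hU OP.nil

theorem hHT2 (hTRG : StTRG) (hFWD : StFWD) : StHT2 := by
  intro G R hs hT
  obtain ⟨x, x', u, y, y', z, hxy', hxz, hx'z, huy, huy', nxy, nx'y, nx'y'⟩ := hT
  have dxx' : x ≠ x' := fun h => nx'y' (h ▸ hxy')
  have dxu : x ≠ u := fun h => nxy (h ▸ huy)
  have dx'u : x' ≠ u := fun h => nx'y (h ▸ huy)
  have dyy' : y ≠ y' := fun h => nxy (h ▸ hxy')
  have dyz : y ≠ z := fun h => nxy (h ▸ hxz)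
  have dy'z : y' ≠ z := fun h => nx'y' (h ▸ hx'z)
  have ft_x : f2 x' u y z true x = [] := by simp [f2, dxu, dxx']
  have ft_x' : f2 x' u y z true x' = [((true, false), false)] := by simp [f2, dx'u]
  have ft_u : f2 x' u y z true u = [((false, true), true)] := by simp [f2]
  have ff_y : f2 x' u y z false y = [((false, false), false)] := by simp [f2]
  have ff_y' : f2 x' u y z false y' = [] := by simp [f2, dyy'.symm, dy'z]
  have ff_z : f2 x' u y z false z = [((true, true), true)] := by simp [f2, dyz.symm]
  refine ⟨k2 x x' u y y' z, ?_, ?_⟩
  · rintro ⟨⟨i, s⟩, o⟩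
    cases i <;> cases s <;> simp [k2]
  intro w hw
  constructor
  · intro hop
    refine hFWD G R (k2 x x' u y y' z) ?_ ?_ ?_ w hw hop
    · intro i
      cases i
      · exact nc_pair _ _ huy'
      · exact nc_pair _ _ hxz
    · intro i U hU
      cases i
      · have h1 : NC R (y' :: (U ++ x :: [])) := NC.wrap y' x U [] (hs _ _ hxy') hU NC.nil
        have h2 := NC.wrap u y _ [] huy h1 NC.nil
        simpa [k2] using h2
      · have h1 : NC R (z :: (U ++ x' :: [])) := NC.wrap z x' U [] (hs _ _ hx'z) hU NC.nil
        have h2 := NC.wrap x y' _ [] hxy' h1 NC.nil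
        simpa [k2] using h2
    · intro i U hU
      cases i
      · have h1 : NC R (y :: (U ++ u :: [])) := NC.wrap y u U [] (hs _ _ huy) hU NC.nil
        have h2 := NC.wrap x y' _ [] hxy' h1 NC.nil
        simpa [k2] using h2
      · have h1 : NC R (y' :: (U ++ x :: [])) := NC.wrap y' x U [] (hs _ _ hxy') hU NC.nil
        have h2 := NC.wrap x' z _ [] hx'z h1 NC.nil
        simpa [k2] using h2
  · intro hnc
    have key := hTRG G Bool Bool R (fun b _ => !b) (f2 x' u y z) (al2 x x' u y y' z) (by
      intro s a b hab ha hb
      refine ⟨by simp, ?_⟩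
      intro U hU
      cases s
      · simp only [al2, Bool.false_eq_true, if_false, Bool.not_false, if_true] at ha hb
        rcases ha with rfl | rfl | rfl <;> rcases hb with rfl | rfl | rfl
        · exact absurd (hs _ _ hab) nxy
        · exact absurd (hs _ _ hab) nx'y
        · rw [ff_y, Bool.not_false, ft_u]
          exact op_wr false false false true U hU
        · rw [ff_y', Bool.not_false, ft_x]
          simpa using hU
        · exact absurd (hs _ _ hab) nx'y'
        · rw [ff_y', Bool.not_false, ft_u]
          exact WB.op_append _ _ OP.nil (WB.op_append _ _ hU (op_one _))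
        · rw [ff_z, Bool.not_false, ft_x]
          exact WB.op_append _ _ (op_one _) (WB.op_append _ _ hU OP.nil)
        · rw [ff_z, Bool.not_false, ft_x']
          exact op_wr true true true false U hU
        · rw [ff_z, Bool.not_false, ft_u]
          exact WB.op_append _ _ (op_one _) (WB.op_append _ _ hU (op_one _))
      · simp only [al2, Bool.false_eq_true, if_false, Bool.not_true, if_true] at ha hb
        rcases ha with rfl | rfl | rfl <;> rcases hb with rfl | rfl | rfl
        · exact absurd hab nxy
        · rw [ft_x, Bool.not_true, ff_y']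
          simpa using hU
        · rw [ft_x, Bool.not_true, ff_z]
          exact WB.op_append _ _ OP.nil (WB.op_append _ _ hU (op_one _))
        · exact absurd hab nx'y
        · exact absurd hab nx'y'
        · rw [ft_x', Bool.not_true, ff_z]
          exact op_wr true false false true U hU
        · rw [ft_u, Bool.not_true, ff_y]
          exact op_wr false true true false U hU
        · rw [ft_u, Bool.not_true, ff_y']
          exact WB.op_append _ _ (op_one _) (WB.op_append _ _ hU OP.nil)
        · rw [ft_u, Bool.not_true, ff_z]
          exact WB.op_append _ _ (op_one _) (WB.op_append _ _ hU (op_one _)))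
      _ hnc true
    have hall : ∀ v : List ((Bool × Bool) × Bool), QW v →
        Al (fun b (_ : G) => !b) (al2 x x' u y y' z) true (v.flatMap (k2 x x' u y y' z)) ∧
        out (fun b (_ : G) => !b) (f2 x' u y z) true (v.flatMap (k2 x x' u y y' z)) = v := by
      intro v
      induction v with
      | nil => intro _; exact ⟨trivial, rfl⟩
      | cons a v ih =>
        intro hv
        obtain ⟨i1, i2⟩ := ih (fun b hb => hv b (List.mem_cons_of_mem _ hb))
        have ha : a.2 = a.1.2 := hv a (by simp)
        rcases a with ⟨⟨i, s⟩, o⟩
        simp only at ha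
        subst ha
        cases i <;> cases o
        · simp [k2, Al, out, al2, ft_x, ff_y, i1, i2]
        · simp [k2, Al, out, al2, ft_u, ff_y', i1, i2]
        · simp [k2, Al, out, al2, ft_x', ff_y', i1, i2]
        · simp [k2, Al, out, al2, ft_x, ff_z, i1, i2]
    obtain ⟨h1, h2⟩ := hall w hw
    have h3 := (key h1).2
    rwa [h2] at h3

end Pool.Agent.Helper26.DI
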